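import Pool.Agent.W23.PL.Defs
import Pool.Agent.H442R2.BX.Bk

/-!
PL project, task BX0 (helper8): the first moment.
-/

set_option autoImplicit false

namespace Pool.Agent.U8.PL

open Finset
open Pool.Agent.H442R2
open Pool.Agent.H442R2.KF
open Pool.Agent.W23.DC
open Pool.Agent.W23.PL

namespace Bx0

lemma xx_nonneg (P : Finset ℕ) (m : ℤ) : 0 ≤ xx P m := by
  unfold xx; split_ifs <;> norm_num

lemma xx_le_one (P : Finset ℕ) (m : ℤ) : xx P m ≤ 1 := by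
  unfold xx; split_ifs <;> norm_num

lemma xx_sq (P : Finset ℕ) (m : ℤ) : xx P m * xx P m = xx P m := by
  unfold xx; split_ifs <;> norm_num

lemma VV_nonneg {P : Finset ℕ} (hP : ∀ p ∈ P, p.Prime) : 0 ≤ VV P := by
  unfold VV
  refine prod_nonneg fun p hp => ?_
  have : (1 : ℝ) ≤ p := by exact_mod_cast (hP p hp).one_lt.le
  rw [sub_nonneg, div_le_one (by linarith)]
  exact this

lemma VV_le_one {P : Finset ℕ} (hP : ∀ p ∈ P, p.Prime) : VV P ≤ 1 := by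
  unfold VV
  refine prod_le_one (fun p hp => ?_) (fun p hp => ?_)
  · have : (1 : ℝ) ≤ p := by exact_mod_cast (hP p hp).one_lt.le
    rw [sub_nonneg, div_le_one (by linarith)]
    exact this
  · have : (0 : ℝ) ≤ 1 / (p : ℝ) := by positivity
    linarith

/-- `1_{e=1}` -/
noncomputable def d1 (e : ℕ) : ℝ := if e = 1 then 1 else 0

lemma Ev_d1 {D : ℕ} (hD : 1 ≤ D) (m : ℤ) : Ev d1 D m = 1 := by
  unfold Ev d1
  rw [sum_eq_single 1]
  · simp
  · intro e _ he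
    simp [he]
  · intro h
    exact absurd (mem_Icc.2 ⟨le_rfl, hD⟩) h

lemma hat_d1 {D : ℕ} (hD : 1 ≤ D) : hat d1 D = 1 := by
  unfold hat d1
  rw [sum_eq_single 1]
  · simp
  · intro e _ he
    simp [he]
  · intro h
    exact absurd (mem_Icc.2 ⟨le_rfl, hD⟩) h

lemma DW_d1 (P : Finset ℕ) {D : ℕ} {U : ℝ} (hD : 1 ≤ D) (hU : 1 ≤ U) : DW P D U d1 where
  bd e := by
    unfold d1
    split_ifs
    · simpa using hU
    · simpa using (by linarith : (0 : ℝ) ≤ U)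
  supp e he := by
    have h1 : e = 1 := by
      by_contra h
      exact he (by simp [d1, h])
    subst h1
    exact ⟨squarefree_one, hD, fun p hp hd => absurd (Nat.dvd_one.1 hd) hp.one_lt.ne'⟩

lemma Ev_bdd (th : ℕ → ℝ) (D : ℕ) (m : ℤ) : |Ev th D m| ≤ ∑ e ∈ Icc 1 D, |th e| := by
  unfold Ev
  refine (abs_sum_le_sum_abs _ _).trans (sum_le_sum fun e _ => ?_)
  rw [abs_mul]
  split_ifs <;> simp

lemma summ_mul {w g : ℤ → ℝ} (hw : ∀ n, 0 ≤ w n) (hs : Summable w) {K : ℝ}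
    (hg : ∀ n, |g n| ≤ K) : Summable (fun n => w n * g n) := by
  refine Summable.of_norm_bounded (g := fun n => w n * K) (hs.mul_right K) fun n => ?_
  rw [Real.norm_eq_abs, abs_mul, abs_of_nonneg (hw n)]
  exact mul_le_mul_of_nonneg_left (hg n) (hw n)

/-- the numbers behind the off-diagonal terms -/
lemma num_core {R T11 T10 T01 T00 TD0 T0D TD1 T1D V ρ L h k E : ℝ}
    (hV0 : 0 ≤ V) (hV1 : V ≤ 1) (hρ0 : 0 ≤ ρ) (hρ1 : ρ ≤ 1) (hh : |h - V| ≤ ρ * V)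
    (hk : |k| ≤ ρ * V)
    (h11 : |T11 - L * (h * h)| ≤ E) (h10 : |T10 - L * (h * 1)| ≤ E) (h01 : |T01 - L * (1 * h)| ≤ E)
    (h00 : |T00 - L * (1 * 1)| ≤ E) (hD0 : |TD0 - L * (k * 1)| ≤ E) (h0D : |T0D - L * (1 * k)| ≤ E)
    (hD1 : |TD1 - L * (k * h)| ≤ E) (h1D : |T1D - L * (h * k)| ≤ E)
    (hu : R ≤ T11 - V * T10 - V * T01 + V ^ 2 * T00 + V * TD0 + V * T0D)
    (hl : T11 - V * T10 - V * T01 + V ^ 2 * T00 - TD1 - T1D ≤ R) :
    |R| ≤ 7 * (ρ * V ^ 2 * |L|) + 8 * E := by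
  have hE : 0 ≤ E := (abs_nonneg _).trans h11
  have hL0 : 0 ≤ |L| := abs_nonneg L
  have hq : 0 ≤ ρ * V ^ 2 * |L| := by positivity
  have hs1 : |L * (h - V) ^ 2| ≤ ρ * V ^ 2 * |L| := by
    rw [abs_mul, abs_pow]
    have h1 : |h - V| ^ 2 ≤ (ρ * V) ^ 2 := pow_le_pow_left₀ (abs_nonneg _) hh 2
    have h2 : (ρ * V) ^ 2 ≤ ρ * V ^ 2 := by
      have : ρ ^ 2 ≤ ρ := by nlinarith
      calc (ρ * V) ^ 2 = ρ ^ 2 * V ^ 2 := by ring
        _ ≤ ρ * V ^ 2 := by gcongr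
    calc |L| * |h - V| ^ 2 ≤ |L| * (ρ * V ^ 2) := by
          gcongr
          exact h1.trans h2
      _ = ρ * V ^ 2 * |L| := by ring
  have hs2 : |V * (L * k)| ≤ ρ * V ^ 2 * |L| := by
    rw [abs_mul, abs_mul, abs_of_nonneg hV0]
    calc V * (|L| * |k|) ≤ V * (|L| * (ρ * V)) := by gcongr
      _ = ρ * V ^ 2 * |L| := by ring
  have hh2 : |h| ≤ 2 * V := by
    have h1 : |h| ≤ |h - V| + |V| := by
      have := abs_add_le (h - V) V
      simpa using this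
    rw [abs_of_nonneg hV0] at h1
    have h2 : ρ * V ≤ V := by nlinarith
    linarith
  have hs3 : |L * (k * h)| ≤ 2 * (ρ * V ^ 2 * |L|) := by
    rw [abs_mul, abs_mul]
    calc |L| * (|k| * |h|) ≤ |L| * ((ρ * V) * (2 * V)) := by gcongr
      _ = 2 * (ρ * V ^ 2 * |L|) := by ring
  have hVV : ∀ x : ℝ, |x| ≤ E → |V * x| ≤ E := by
    intro x hx
    rw [abs_mul, abs_of_nonneg hV0]
    calc V * |x| ≤ 1 * E := by gcongr
      _ = E := one_mul _
  have a10 := abs_le.1 (hVV _ h10)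
  have a01 := abs_le.1 (hVV _ h01)
  have a00 := abs_le.1 (hVV _ (hVV _ h00))
  have aD0 := abs_le.1 (hVV _ hD0)
  have a0D := abs_le.1 (hVV _ h0D)
  have a11 := abs_le.1 h11
  have aD1 := abs_le.1 hD1
  have a1D := abs_le.1 h1D
  have b1 := abs_le.1 hs1
  have b2 := abs_le.1 hs2
  have b3 := abs_le.1 hs3
  rw [abs_le]
  constructor
  · have e1 : T11 - V * T10 - V * T01 + V ^ 2 * T00 - TD1 - T1D =
        (T11 - L * (h * h)) - V * (T10 - L * (h * 1)) - V * (T01 - L * (1 * h)) +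
        V * (V * (T00 - L * (1 * 1))) - (TD1 - L * (k * h)) - (T1D - L * (h * k)) +
        L * (h - V) ^ 2 - 2 * (L * (k * h)) := by ring
    linarith [a10.1, a10.2, a01.1, a01.2, a00.1, a11.1, aD1.2, a1D.2, b1.1, b3.2]
  · have e1 : T11 - V * T10 - V * T01 + V ^ 2 * T00 + V * TD0 + V * T0D =
        (T11 - L * (h * h)) - V * (T10 - L * (h * 1)) - V * (T01 - L * (1 * h)) +
        V * (V * (T00 - L * (1 * 1))) + V * (TD0 - L * (k * 1)) + V * (T0D - L * (1 * k)) +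
        L * (h - V) ^ 2 + 2 * (V * (L * k)) := by ring
    linarith [a10.1, a10.2, a01.1, a01.2, a00.2, a11.2, aD0.2, a0D.2, b1.2, b2.2]

/-- the off-diagonal terms -/
lemma core {w x x' t t' d d' : ℤ → ℝ} {R T11 T10 T01 T00 TD0 T0D TD1 T1D V ρ L h k E : ℝ}
    (hw : ∀ n, 0 ≤ w n) (hx : ∀ n, 0 ≤ x n) (hx' : ∀ n, 0 ≤ x' n)
    (ht : ∀ n, x n ≤ t n ∧ t n - x n ≤ d n) (ht' : ∀ n, x' n ≤ t' n ∧ t' n - x' n ≤ d' n)
    (s11 : HasSum (fun n => w n * (t n * t' n)) T11)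
    (s10 : HasSum (fun n => w n * (t n * 1)) T10)
    (s01 : HasSum (fun n => w n * (1 * t' n)) T01)
    (s00 : HasSum (fun n => w n * (1 * 1)) T00)
    (sD0 : HasSum (fun n => w n * (d n * 1)) TD0)
    (s0D : HasSum (fun n => w n * (1 * d' n)) T0D)
    (sD1 : HasSum (fun n => w n * (d n * t' n)) TD1)
    (s1D : HasSum (fun n => w n * (t n * d' n)) T1D)
    (sR : HasSum (fun n => w n * ((x n - V) * (x' n - V))) R)
    (hV0 : 0 ≤ V) (hV1 : V ≤ 1) (hρ0 : 0 ≤ ρ) (hρ1 : ρ ≤ 1) (hh : |h - V| ≤ ρ * V)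
    (hk : |k| ≤ ρ * V)
    (h11 : |T11 - L * (h * h)| ≤ E) (h10 : |T10 - L * (h * 1)| ≤ E) (h01 : |T01 - L * (1 * h)| ≤ E)
    (h00 : |T00 - L * (1 * 1)| ≤ E) (hD0 : |TD0 - L * (k * 1)| ≤ E) (h0D : |T0D - L * (1 * k)| ≤ E)
    (hD1 : |TD1 - L * (k * h)| ≤ E) (h1D : |T1D - L * (h * k)| ≤ E) :
    |R| ≤ 7 * (ρ * V ^ 2 * |L|) + 8 * E := by
  refine num_core hV0 hV1 hρ0 hρ1 hh hk h11 h10 h01 h00 hD0 h0D hD1 h1D ?_ ?_
  · have s := ((((s11.sub (s10.mul_left V)).sub (s01.mul_left V)).add (s00.mul_left (V ^ 2))).add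
      (sD0.mul_left V)).add (s0D.mul_left V)
    refine hasSum_le (fun n => ?_) sR s
    have h1 : (x n - V) * (x' n - V) ≤ t n * t' n - V * t n - V * t' n + V ^ 2 + V * d n +
        V * d' n := by
      have e1 : t n * t' n - x n * x' n = (t n - x n) * t' n + x n * (t' n - x' n) := by ring
      have e2 : 0 ≤ (t n - x n) * t' n :=
        mul_nonneg (by linarith [(ht n).1]) ((hx' n).trans (ht' n).1)
      have e3 : 0 ≤ x n * (t' n - x' n) := mul_nonneg (hx n) (by linarith [(ht' n).1])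
      have e4 : V * (t n - x n) ≤ V * d n := mul_le_mul_of_nonneg_left (ht n).2 hV0
      have e5 : V * (t' n - x' n) ≤ V * d' n := mul_le_mul_of_nonneg_left (ht' n).2 hV0
      nlinarith
    have h2 := mul_le_mul_of_nonneg_left h1 (hw n)
    calc w n * ((x n - V) * (x' n - V)) ≤ _ := h2
      _ = _ := by ring
  · have s := (((((s11.sub (s10.mul_left V)).sub (s01.mul_left V)).add (s00.mul_left (V ^ 2))).sub
      sD1).sub s1D)
    refine hasSum_le (fun n => ?_) s sR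
    have h1 : t n * t' n - V * t n - V * t' n + V ^ 2 - d n * t' n - t n * d' n ≤
        (x n - V) * (x' n - V) := by
      have p1 : 0 ≤ t' n := (hx' n).trans (ht' n).1
      have p2 : 0 ≤ t n := (hx n).trans (ht n).1
      have p3 : 0 ≤ d' n := by linarith [(ht' n).1, (ht' n).2]
      have e2 : (t n - x n) * t' n ≤ d n * t' n := mul_le_mul_of_nonneg_right (ht n).2 p1
      have e3 : x n * (t' n - x' n) ≤ t n * d' n :=
        (mul_le_mul_of_nonneg_left (ht' n).2 (hx n)).trans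
          (mul_le_mul_of_nonneg_right (ht n).1 p3)
      have e4 : 0 ≤ V * (t n - x n) := mul_nonneg hV0 (by linarith [(ht n).1])
      have e5 : 0 ≤ V * (t' n - x' n) := mul_nonneg hV0 (by linarith [(ht' n).1])
      nlinarith
    have h2 := mul_le_mul_of_nonneg_left h1 (hw n)
    calc _ = w n * (t n * t' n - V * t n - V * t' n + V ^ 2 - d n * t' n - t n * d' n) := by ring
      _ ≤ _ := h2

/-- the diagonal terms -/
lemma diag {w x t : ℤ → ℝ} {R T10 T00 V ρ L h E : ℝ}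
    (hw : ∀ n, 0 ≤ w n) (hx : ∀ n, 0 ≤ x n) (hxx : ∀ n, x n * x n = x n)
    (ht : ∀ n, x n ≤ t n)
    (s10 : HasSum (fun n => w n * (t n * 1)) T10)
    (s00 : HasSum (fun n => w n * (1 * 1)) T00)
    (sR : HasSum (fun n => w n * ((x n - V) * (x n - V))) R)
    (hV0 : 0 ≤ V) (hV1 : V ≤ 1) (hρ1 : ρ ≤ 1) (hh : |h - V| ≤ ρ * V)
    (h10 : |T10 - L * (h * 1)| ≤ E) (h00 : |T00 - L * (1 * 1)| ≤ E) :
    R ≤ 3 * (V * |L|) + 2 * E := by
  have hE : 0 ≤ E := (abs_nonneg _).trans h10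
  have h1 : R ≤ T10 + V ^ 2 * T00 := by
    refine hasSum_le (fun n => ?_) sR (s10.add (s00.mul_left (V ^ 2)))
    have h1 : (x n - V) * (x n - V) ≤ t n + V ^ 2 := by
      have := mul_nonneg hV0 (hx n)
      nlinarith [hxx n, ht n]
    have h2 := mul_le_mul_of_nonneg_left h1 (hw n)
    calc _ ≤ w n * (t n + V ^ 2) := h2
      _ = _ := by ring
  have hh2 : |h| ≤ 2 * V := by
    have h1 : |h| ≤ |h - V| + |V| := by
      have := abs_add_le (h - V) V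
      simpa using this
    rw [abs_of_nonneg hV0] at h1
    have h2 : ρ * V ≤ V := by nlinarith
    linarith
  have h2 : T10 ≤ 2 * (V * |L|) + E := by
    have h3 : L * (h * 1) ≤ |L| * (2 * V) := by
      calc L * (h * 1) ≤ |L * h| := by rw [mul_one]; exact le_abs_self _
        _ = |L| * |h| := abs_mul _ _
        _ ≤ |L| * (2 * V) := by gcongr
    linarith [(abs_le.1 h10).2]
  have h3 : T00 ≤ |L| + E := by
    linarith [(abs_le.1 h00).2, le_abs_self L]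
  have h4 : V ^ 2 * T00 ≤ V * |L| + E := by
    have h5 : V ^ 2 ≤ V := by nlinarith
    have h6 : V ^ 2 * T00 ≤ V ^ 2 * (|L| + E) := mul_le_mul_of_nonneg_left h3 (by positivity)
    have h7 : V ^ 2 * (|L| + E) ≤ V * (|L| + E) :=
      mul_le_mul_of_nonneg_right h5 (by positivity)
    have h8 : V * E ≤ 1 * E := by gcongr
    linarith
  linarith

/-- the bound of the error term -/
lemma err_le {x l C κ : ℝ} {B : ℕ} (hB : 40 ≤ B) (hl : 1 ≤ l) (hx : 0 < x) (hC : 0 < C)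
    (h1 : 2 * C ≤ κ * l) (h2 : 2 * C * l ^ 5 ≤ κ * x) :
    C * l ^ 2 * (x * l ^ 20 / l ^ B + 1) ≤ κ * x / l ^ 3 := by
  have hl0 : 0 < l := by linarith
  have hκ : 0 < κ := by
    by_contra h
    push Not at h
    nlinarith
  have h3 : l ^ 20 / l ^ B ≤ 1 / l ^ 20 := by
    rw [div_le_div_iff₀ (by positivity) (by positivity), one_mul, ← pow_add]
    exact pow_le_pow_right₀ hl hB
  have h4 : C * l ^ 2 * (x * l ^ 20 / l ^ B) ≤ κ * x / l ^ 3 / 2 := by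
    have h5 : C * l ^ 2 * (x * l ^ 20 / l ^ B) ≤ C * l ^ 2 * (x * (1 / l ^ 20)) := by
      have : x * l ^ 20 / l ^ B = x * (l ^ 20 / l ^ B) := by ring
      rw [this]
      gcongr
    refine h5.trans ?_
    rw [div_div, le_div_iff₀ (by positivity)]
    have h6 : C * l ^ 2 * (x * (1 / l ^ 20)) * (l ^ 3 * 2) = 2 * C * x / l ^ 15 := by
      field_simp
    rw [h6, div_le_iff₀ (by positivity)]
    have h7 : l ≤ l ^ 15 := le_self_pow₀ hl (by norm_num)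
    calc 2 * C * x ≤ κ * l * x := by gcongr
      _ ≤ κ * l ^ 15 * x := by gcongr
      _ = κ * x * l ^ 15 := by ring
  have h5 : C * l ^ 2 ≤ κ * x / l ^ 3 / 2 := by
    rw [div_div, le_div_iff₀ (by positivity)]
    calc C * l ^ 2 * (l ^ 3 * 2) = 2 * C * l ^ 5 := by ring
      _ ≤ κ * x := h2
  calc C * l ^ 2 * (x * l ^ 20 / l ^ B + 1) = C * l ^ 2 * (x * l ^ 20 / l ^ B) + C * l ^ 2 := by
        ring
    _ ≤ κ * x / l ^ 3 := by linarith

/-- the final estimate, numbers only -/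
lemma fin_num {V ρ X E L Fs G O SY Sa c zz e0 : ℝ} (hV0 : 0 ≤ V) (hV1 : V ≤ 1) (hρ0 : 0 ≤ ρ)
    (hρ1 : ρ ≤ 1) (hX : 0 ≤ X) (hE : E ≤ ρ * V ^ 2 * X) (hL : |L| ≤ 161 * X)
    (_hFs0 : 0 ≤ Fs) (hFs : Fs ≤ 4050 * X) (hG : G = 3 * (V * |L|) + 2 * E)
    (hO : O = 7 * (ρ * V ^ 2 * |L|) + 8 * E) (hc : 0 ≤ c)
    (hSY : SY ≤ 25 * Fs * (G + c * O)) (hSa : Sa ≤ 2 * SY + c * zz)
    (hz : zz ≤ ρ * V ^ 2 * X ^ 2) (hρe : 229837501 * ρ ≤ e0) (hE0 : 0 ≤ E) :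
    Sa ≤ X ^ 2 * (10 ^ 8 * V + e0 * V ^ 2 * c) := by
  have h0 : ρ * V ^ 2 * X ≤ V * X := by
    have h1 : ρ * V ^ 2 ≤ 1 * V := by
      have : V ^ 2 ≤ V := by nlinarith
      gcongr
    rw [one_mul] at h1
    gcongr
  have h1 : G ≤ 485 * (V * X) := by
    have h2 : V * |L| ≤ V * (161 * X) := by gcongr
    rw [hG]
    linarith
  have h2 : O ≤ 1135 * (ρ * V ^ 2 * X) := by
    have h3 : ρ * V ^ 2 * |L| ≤ ρ * V ^ 2 * (161 * X) := by gcongr
    rw [hO]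
    linarith
  have hG0 : 0 ≤ G := by rw [hG]; positivity
  have hO0 : 0 ≤ O := by rw [hO]; positivity
  have h3 : SY ≤ 25 * (4050 * X) * (485 * (V * X) + c * (1135 * (ρ * V ^ 2 * X))) := by
    refine hSY.trans ?_
    gcongr
  have h4 : c * zz ≤ c * (ρ * V ^ 2 * X ^ 2) := by gcongr
  have h5 : Sa ≤ X ^ 2 * (98212500 * V + (229837501 * ρ) * V ^ 2 * c) := by
    calc Sa ≤ 2 * (25 * (4050 * X) * (485 * (V * X) + c * (1135 * (ρ * V ^ 2 * X)))) +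
          c * (ρ * V ^ 2 * X ^ 2) := by linarith
      _ = X ^ 2 * (98212500 * V + (229837501 * ρ) * V ^ 2 * c) := by ring
  refine h5.trans ?_
  have h6 : (98212500 : ℝ) * V ≤ 10 ^ 8 * V := by
    gcongr
    norm_num
  gcongr

lemma rho_le {A₀ ε₁ : ℝ} (h0 : 0 < ε₁) (h1 : ε₁ ≤ 1) :
    229837501 * Real.exp (-((A₀ + 30) / ε₁)) ≤ Real.exp (-(A₀ / ε₁)) := by
  have h2 : Real.exp (-((A₀ + 30) / ε₁)) = Real.exp (-(A₀ / ε₁)) * Real.exp (-(30 / ε₁)) := by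
    rw [← Real.exp_add]
    congr 1
    ring
  have h3 : Real.exp (-(30 / ε₁)) ≤ Real.exp (-30) := by
    apply Real.exp_le_exp.2
    have : 30 ≤ 30 / ε₁ := by
      rw [le_div_iff₀ h0]
      linarith
    linarith
  have h4 : 229837501 * Real.exp (-30) ≤ 1 := by
    have h5 : (2 : ℝ) ≤ Real.exp 1 := by
      have := Real.add_one_le_exp (1 : ℝ)
      linarith
    have h6 : (2 : ℝ) ^ 30 ≤ Real.exp 30 := by
      calc (2 : ℝ) ^ 30 ≤ Real.exp 1 ^ 30 := pow_le_pow_left₀ (by norm_num) h5 30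
        _ = Real.exp 30 := by
            rw [← Real.exp_nat_mul]
            norm_num
    have h7 : Real.exp (-30) * Real.exp 30 = 1 := by
      rw [← Real.exp_add]
      norm_num
    have h8 := Real.exp_pos (-30 : ℝ)
    nlinarith
  have h5 := Real.exp_pos (-(A₀ / ε₁))
  rw [h2]
  calc 229837501 * (Real.exp (-(A₀ / ε₁)) * Real.exp (-(30 / ε₁))) ≤
        229837501 * (Real.exp (-(A₀ / ε₁)) * Real.exp (-30)) := by gcongr
    _ = Real.exp (-(A₀ / ε₁)) * (229837501 * Real.exp (-30)) := by ring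
    _ ≤ Real.exp (-(A₀ / ε₁)) * 1 := by gcongr
    _ = Real.exp (-(A₀ / ε₁)) := mul_one _

lemma large {C κ : ℝ} (hC : 0 < C) (hκ : 0 < κ) : ∃ N₀ : ℕ, ∀ N : ℕ, N₀ ≤ N →
    3 ≤ Real.log N ∧ 2 * C ≤ κ * Real.log N ∧ 2 * C * Real.log N ^ 5 ≤ κ * N ∧
    2 * Real.log N ^ 4 ≤ κ * N ∧ (2 : ℝ) ≤ (N : ℝ) ^ (1 / 80 : ℝ) := by
  have h1 : ∀ᶠ N : ℕ in Filter.atTop, 3 ≤ Real.log N :=
    (Real.tendsto_log_atTop.comp (tendsto_natCast_atTop_atTop (R := ℝ))).eventually_ge_atTop 3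
  have h2 : ∀ᶠ N : ℕ in Filter.atTop, 2 * C / κ ≤ Real.log N :=
    (Real.tendsto_log_atTop.comp (tendsto_natCast_atTop_atTop (R := ℝ))).eventually_ge_atTop _
  have h3 : ∀ᶠ N : ℕ in Filter.atTop, ‖Real.log (N : ℝ) ^ 5‖ ≤ κ / (2 * C) * ‖id (N : ℝ)‖ :=
    (tendsto_natCast_atTop_atTop (R := ℝ)).eventually
      ((Real.isLittleO_pow_log_id_atTop (n := 5)).def (by positivity : 0 < κ / (2 * C)))
  have h4 : ∀ᶠ N : ℕ in Filter.atTop, ‖Real.log (N : ℝ) ^ 4‖ ≤ κ / 2 * ‖id (N : ℝ)‖ :=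
    (tendsto_natCast_atTop_atTop (R := ℝ)).eventually
      ((Real.isLittleO_pow_log_id_atTop (n := 4)).def (by positivity : 0 < κ / 2))
  have h5 : ∀ᶠ N : ℕ in Filter.atTop, (2 : ℝ) ≤ (N : ℝ) ^ (1 / 80 : ℝ) :=
    ((tendsto_rpow_atTop (by norm_num : (0 : ℝ) < 1 / 80)).comp
      (tendsto_natCast_atTop_atTop (R := ℝ))).eventually_ge_atTop 2
  obtain ⟨N₀, hN₀⟩ := Filter.eventually_atTop.1 (h1.and (h2.and (h3.and (h4.and h5))))
  refine ⟨N₀, fun N hN => ?_⟩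
  obtain ⟨g1, g2, g3, g4, g5⟩ := hN₀ N hN
  have hN0 : (0 : ℝ) ≤ N := Nat.cast_nonneg N
  refine ⟨g1, ?_, ?_, ?_, g5⟩
  · rw [div_le_iff₀ hκ] at g2
    linarith
  · have h6 : Real.log (N : ℝ) ^ 5 ≤ κ / (2 * C) * N := by
      have := (le_abs_self _).trans g3
      simpa [abs_of_nonneg hN0] using this
    calc 2 * C * Real.log N ^ 5 ≤ 2 * C * (κ / (2 * C) * N) := by gcongr
      _ = κ * N := by field_simp
  · have h6 : Real.log (N : ℝ) ^ 4 ≤ κ / 2 * N := by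
      have := (le_abs_self _).trans g4
      simpa [abs_of_nonneg hN0] using this
    linarith

lemma split_sq {y u D : ℝ} (h : |u| ≤ D) : (y + u) ^ 2 ≤ 2 * y ^ 2 + 2 * D ^ 2 := by
  have h1 : u ^ 2 ≤ D ^ 2 := by
    rw [← sq_abs]
    exact pow_le_pow_left₀ (abs_nonneg _) h 2
  nlinarith [sq_nonneg (y - u)]

lemma small_primes {N D : ℕ} {f g : ℕ → ℝ} (hf : ∀ p, |f p| ≤ 1) (hg : ∀ p, |g p| ≤ 1)
    {S : Finset ℕ} (hS : S = (Icc 1 N).filter (fun p => p.Prime ∧ D < p)) :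
    (∑ p ∈ (Icc 1 N).filter Nat.Prime, f p * g p) ^ 2 ≤
      2 * (∑ p ∈ S, f p * g p) ^ 2 + 2 * (D : ℝ) ^ 2 := by
  have h2 := sum_filter_add_sum_filter_not ((Icc 1 N).filter Nat.Prime) (fun p => D < p)
    (fun p => f p * g p)
  have h3 : ((Icc 1 N).filter Nat.Prime).filter (fun p => D < p) = S := by
    rw [hS, filter_filter]
  rw [h3] at h2
  rw [← h2]
  refine split_sq ?_
  refine (abs_sum_le_sum_abs _ _).trans ?_
  refine (sum_le_card_nsmul _ _ 1 (fun p _ => ?_)).trans ?_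
  · rw [abs_mul]
    exact mul_le_one₀ (hf p) (abs_nonneg _) (hg p)
  · rw [nsmul_eq_mul, mul_one]
    have h5 : ((Icc 1 N).filter Nat.Prime).filter (fun p => ¬ D < p) ⊆ Icc 1 D := by
      intro p hp
      rw [mem_filter, mem_filter, mem_Icc] at hp
      rw [mem_Icc]
      exact ⟨hp.1.1.1, not_lt.1 hp.2⟩
    have h6 := card_le_card h5
    rw [Nat.card_Icc] at h6
    exact_mod_cast (by omega : (((Icc 1 N).filter Nat.Prime).filter (fun p => ¬ D < p)).card ≤ D)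

end Bx0

set_option maxHeartbeats 4000000 in
open Bx0 in
theorem BX0 (hFLW : St_FLW) (hCOR : St_COR) (hVLB : St_VLB) (hDU : BX.St_DU) (hWXS : St_WXS)
    (_hGS : BX.St_GS) (_hGW : BX.St_GW) : St_BX0 := by
  intro A₀ hA₀
  obtain ⟨e1, he1, flw⟩ := hFLW (1 / 40) (A₀ + 30) (by norm_num) (by linarith)
  obtain ⟨C1, NC, hC1, cor⟩ := hCOR
  obtain ⟨c2, hc2, vlb⟩ := hVLB
  refine ⟨min e1 1, lt_min he1 one_pos, fun ε₁ hε hε1 => ?_⟩
  have hεe : ε₁ ≤ e1 := hε1.trans (min_le_left _ _)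
  have hεo : ε₁ ≤ 1 := hε1.trans (min_le_right _ _)
  refine ⟨10 ^ 8, by norm_num, fun B hB => ?_⟩
  obtain ⟨N1, flw⟩ := flw ε₁ hε hεe B (by omega)
  obtain ⟨N2, vlb⟩ := vlb B (by omega) ε₁ hε hεo
  have hρe := rho_le (A₀ := A₀) hε hεo
  obtain ⟨ρ, hρ⟩ : ∃ ρ : ℝ, ρ = Real.exp (-((A₀ + 30) / ε₁)) := ⟨_, rfl⟩
  rw [← hρ] at hρe
  have hρ0 : 0 < ρ := by rw [hρ]; exact Real.exp_pos _
  have hρ1 : ρ ≤ 1 := by
    rw [hρ]
    apply Real.exp_le_one_iff.2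
    have : 0 < (A₀ + 30) / ε₁ := by positivity
    linarith
  obtain ⟨κ, hκe⟩ : ∃ κ : ℝ, κ = ρ * c2 ^ 2 := ⟨_, rfl⟩
  have hκ : 0 < κ := by rw [hκe]; positivity
  obtain ⟨N3, hN3⟩ := large hC1 hκ
  refine ⟨NC + N1 + N2 + N3 + 3, fun N hN f hf 𝒜 h𝒜 => ?_⟩
  obtain ⟨g1, g2, g3, g4, g5⟩ := hN3 N (by omega)
  have hNr : (3 : ℝ) ≤ N := by exact_mod_cast (by omega : 3 ≤ N)
  have hN0 : (0 : ℝ) < N := by linarith
  have hN1 : (1 : ℝ) ≤ N := by linarith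
  obtain ⟨l, hl⟩ : ∃ l : ℝ, l = Real.log N := ⟨_, rfl⟩
  obtain ⟨D, hD⟩ : ∃ D : ℕ, D = ⌊(N : ℝ) ^ (1 / 40 : ℝ)⌋₊ := ⟨_, rfl⟩
  obtain ⟨th, dl, hth, hdl, hpt, hhat, hdhat⟩ := flw N (by omega) D hD
  obtain ⟨P, hP⟩ : ∃ P : Finset ℕ, P = P1 N B ε₁ := ⟨_, rfl⟩
  have hPp : ∀ p ∈ P, p.Prime ∧ l ^ B ≤ (p : ℝ) := by
    intro p hp
    rw [hP] at hp
    unfold P1 at hp
    rw [mem_filter] at hp
    rw [hl]
    exact ⟨hp.2.1, hp.2.2.1⟩
  have hV := (vlb N (by omega)).1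
  rw [← hP, ← hρ] at hhat hdhat
  rw [← hP] at hth hdl hpt hV ⊢
  rw [← hl] at hth hdl hV g1 g2 g3 g4 ⊢
  obtain ⟨V, hVe⟩ : ∃ V : ℝ, V = VV P := ⟨_, rfl⟩
  have hV0 : 0 ≤ V := by rw [hVe]; exact VV_nonneg fun p hp => (hPp p hp).1
  have hV1 : V ≤ 1 := by rw [hVe]; exact VV_le_one fun p hp => (hPp p hp).1
  rw [← hVe] at hhat hdhat hV ⊢
  have hl0 : 0 < l := by linarith
  have hVl : c2 / l ≤ V := by
    refine le_trans ?_ hV
    rw [div_eq_mul_one_div]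
    refine mul_le_mul_of_nonneg_left ?_ hc2.le
    rw [div_le_div_iff₀ hl0 (by positivity), one_mul]
    have h1 : 1 ≤ Real.log l := by
      rw [Real.le_log_iff_exp_le hl0]
      linarith [Real.exp_one_lt_d9]
    have h2 : (1 : ℝ) ≤ B := by exact_mod_cast (by omega : 1 ≤ B)
    have h3 : ε₁ ≤ B * Real.log l := by nlinarith
    nlinarith
  -- the sizes of `D = z`
  have hz1 : (D : ℝ) ≤ (N : ℝ) ^ (1 / 40 : ℝ) := by
    rw [hD]
    exact Nat.floor_le (Real.rpow_nonneg hN0.le _)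
  have hz2 : (N : ℝ) ^ (1 / 40 : ℝ) < D + 1 := by
    rw [hD]
    exact Nat.lt_floor_add_one _
  obtain ⟨g, hg⟩ : ∃ g : ℝ, g = (N : ℝ) ^ (1 / 80 : ℝ) := ⟨_, rfl⟩
  rw [← hg] at g5
  have hgg : (N : ℝ) ^ (1 / 40 : ℝ) = g * g := by
    rw [hg, ← Real.rpow_add hN0]
    norm_num
  have hgz : g ≤ D := by
    rw [hgg] at hz2
    nlinarith
  have hD2 : 2 ≤ D := by
    have : (2 : ℝ) ≤ D := g5.trans hgz
    exact_mod_cast this
  have hD1 : 1 ≤ D := by omega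
  have hlz : l / 80 ≤ Real.log D := by
    have h1 : Real.log g ≤ Real.log D := Real.log_le_log (by linarith) hgz
    rw [hg, Real.log_rpow hN0, ← hl] at h1
    linarith
  have hlz0 : 0 < Real.log D := by linarith
  have hz20 : (D : ℝ) ≤ (N : ℝ) ^ (1 / 20 : ℝ) :=
    hz1.trans (Real.rpow_le_rpow_of_exponent_le hN1 (by norm_num))
  obtain ⟨lam, hlam⟩ := hWXS D hD2
  -- the weight
  obtain ⟨w, hw⟩ : ∃ w : ℤ → ℝ, w = fun n => Wt N n * BX.nuS lam D n := ⟨_, rfl⟩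
  have hw0 : ∀ n, 0 ≤ w n := by
    intro n
    rw [hw]
    exact BX.TaskBK.w_nonneg N D lam n
  have hws : Summable w := by
    rw [hw]
    exact BX.TaskBK.summ_w (by omega) hlam.sw
  obtain ⟨L, hL⟩ : ∃ L : ℝ, L = N * LF lam D := ⟨_, rfl⟩
  obtain ⟨E, hE⟩ : ∃ E : ℝ, E = C1 * l ^ 2 * (N * l ^ 20 / l ^ B + 1) := ⟨_, rfl⟩
  obtain ⟨X, hX⟩ : ∃ X : ℝ, X = N / l := ⟨_, rfl⟩
  have hX0 : 0 ≤ X := by rw [hX]; positivity
  have hEX : E ≤ ρ * V ^ 2 * X := by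
    rw [hE]
    refine (err_le hB (by linarith) hN0 hC1 g2 g3).trans ?_
    have h1 : (c2 / l) ^ 2 ≤ V ^ 2 := pow_le_pow_left₀ (by positivity) hVl 2
    calc κ * N / l ^ 3 = ρ * (c2 / l) ^ 2 * (N / l) := by
          rw [hκe]
          field_simp
      _ ≤ ρ * V ^ 2 * (N / l) := by gcongr
      _ = ρ * V ^ 2 * X := by rw [hX]
  have hE0 : 0 ≤ E := by rw [hE]; positivity
  have hEX1 : E ≤ X := by
    refine hEX.trans ?_
    have h1 : V ^ 2 ≤ 1 := pow_le_one₀ hV0 hV1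
    calc ρ * V ^ 2 * X ≤ 1 * 1 * X := by gcongr
      _ = X := by ring
  -- correlations
  have hl2 : (2 : ℝ) ≤ l ^ B := by
    calc (2 : ℝ) ≤ l ^ 1 := by rw [pow_one]; linarith
      _ ≤ l ^ B := pow_le_pow_right₀ (by linarith) (by omega)
  have key : ∀ a a' : ℤ, a ≠ 0 → a' ≠ 0 → a ≠ a' → |(a : ℝ)| ≤ N → |(a' : ℝ)| ≤ N →
      ∀ t1 t2 : ℕ → ℝ, DW P D l t1 → DW P D l t2 →
      ∃ T : ℝ, HasSum (fun n : ℤ => w n * (Ev t1 D (n - a) * Ev t2 D (n - a'))) T ∧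
        |T - L * (hat t1 D * hat t2 D)| ≤ E := by
    intro a a' ha ha' haa haN haN' t1 t2 h1 h2
    have hs : Summable (fun n : ℤ => w n * (Ev t1 D (n - a) * Ev t2 D (n - a'))) := by
      refine summ_mul hw0 hws (K := (∑ e ∈ Icc 1 D, |t1 e|) * (∑ e ∈ Icc 1 D, |t2 e|))
        fun n => ?_
      rw [abs_mul]
      exact mul_le_mul (Ev_bdd _ _ _) (Ev_bdd _ _ _) (abs_nonneg _)
        (sum_nonneg fun e _ => abs_nonneg _)
    refine ⟨_, hs.hasSum, ?_⟩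
    have h3 := cor N (by omega) D D hz20 hz20 lam hlam P (l ^ B) hl2 hPp l t1 t2 hl0.le h1 h2
      a a' ha ha' haa (by linarith) (by linarith)
    rw [← hl] at h3
    rw [hw, hL, hE]
    exact h3
  have hd1 : DW P D l d1 := DW_d1 P hD1 (by linarith)
  -- the size of `L`
  obtain ⟨T0, sT0, hT0⟩ := key 1 2 (by norm_num) (by norm_num) (by norm_num)
    (by norm_num; linarith) (by norm_num; linarith) d1 d1 hd1 hd1
  simp only [Ev_d1 hD1, hat_d1 hD1] at sT0 hT0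
  have hT00 : 0 ≤ T0 := sT0.nonneg (fun n => by have := hw0 n; simpa using this)
  have hLu : L ≤ 160 * X := by
    have h1 : LF lam D ≤ 2 / Real.log D := hlam.sw.form
    have h2 : 2 / Real.log D ≤ 160 / l := by
      rw [div_le_div_iff₀ hlz0 hl0]
      linarith
    calc L = N * LF lam D := hL
      _ ≤ N * (160 / l) := by
          have := h1.trans h2
          gcongr
      _ = 160 * X := by rw [hX]; ring
  have hLa : |L| ≤ 161 * X := by
    rw [abs_le]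
    constructor
    · linarith [(abs_le.1 hT0).2]
    · linarith
  -- primes
  obtain ⟨S, hS⟩ : ∃ S : Finset ℕ, S = (Icc 1 N).filter (fun p => p.Prime ∧ D < p) := ⟨_, rfl⟩
  have hw25 : ∀ p ∈ S, (1 : ℝ) ≤ 25 * w (p : ℤ) := by
    intro p hp
    rw [hS, mem_filter, mem_Icc] at hp
    rw [hw]
    exact BX.TaskBK.w_prime hlam.sw hD1 hp.2.1 hp.2.2 hp.1.2
  have hFs : ∑ p ∈ S, f p ^ 2 ≤ 4050 * X := by
    have h2 : ∑ p ∈ S, w (p : ℤ) ≤ T0 := by
      have h3 := sum_le_hasSum (S.map ⟨(fun p : ℕ => (p : ℤ)), Nat.cast_injective⟩)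
        (fun n _ => by have := hw0 n; simpa using this) sT0
      rw [sum_map] at h3
      simpa using h3
    calc ∑ p ∈ S, f p ^ 2 ≤ ∑ p ∈ S, 25 * w (p : ℤ) := by
          refine sum_le_sum fun p hp => le_trans ?_ (hw25 p hp)
          rw [← sq_abs]
          exact pow_le_one₀ (abs_nonneg _) (hf p)
      _ = 25 * ∑ p ∈ S, w (p : ℤ) := by rw [mul_sum]
      _ ≤ 4050 * X := by linarith [(abs_le.1 hT0).2, le_abs_self L]
  have hxV : ∀ m : ℤ, |xx P m - V| ≤ 1 := by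
    intro m
    rw [abs_le]
    have h1 := xx_nonneg P m
    have h2 := xx_le_one P m
    constructor <;> linarith
  have hsR : ∀ a a' : ℤ, Summable (fun n : ℤ => w n * ((xx P (n - a) - V) * (xx P (n - a') - V))) := by
    intro a a'
    refine summ_mul hw0 hws (K := 1) fun n => ?_
    rw [abs_mul]
    exact mul_le_one₀ (hxV _) (abs_nonneg _) (hxV _)
  have hdu := hDU w hw0 S hw25 𝒜 (fun a n => xx P (n - a) - V) f (fun a _ a' _ => hsR a a')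
    (3 * (V * |L|) + 2 * E) (7 * (ρ * V ^ 2 * |L|) + 8 * E)
    (by
      intro a ha
      obtain ⟨ha0, haN⟩ := h𝒜 a ha
      obtain ⟨a', ha'0, ha'a, ha'N⟩ : ∃ a' : ℤ, a' ≠ 0 ∧ a ≠ a' ∧ |(a' : ℝ)| ≤ N := by
        by_cases h : a = 1
        · exact ⟨2, by norm_num, by omega, by norm_num; linarith⟩
        · exact ⟨1, by norm_num, h, by norm_num; linarith⟩
      obtain ⟨T10, s10, h10⟩ := key a a' ha0 ha'0 ha'a haN ha'N th d1 hth hd1
      simp only [Ev_d1 hD1, hat_d1 hD1] at s10 h10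
      exact diag hw0 (fun n => xx_nonneg P (n - a)) (fun n => xx_sq P (n - a))
        (fun n => (hpt (n - a)).1) s10 sT0 (hsR a a).hasSum hV0 hV1 hρ1 hhat h10 hT0)
    (by positivity) (by positivity)
    (by
      intro a ha a' ha' haa
      obtain ⟨ha0, haN⟩ := h𝒜 a ha
      obtain ⟨ha'0, ha'N⟩ := h𝒜 a' ha'
      obtain ⟨T11, s11, h11⟩ := key a a' ha0 ha'0 haa haN ha'N th th hth hth
      obtain ⟨T10, s10, h10⟩ := key a a' ha0 ha'0 haa haN ha'N th d1 hth hd1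
      obtain ⟨T01, s01, h01⟩ := key a a' ha0 ha'0 haa haN ha'N d1 th hd1 hth
      obtain ⟨TD0, sD0, hD0⟩ := key a a' ha0 ha'0 haa haN ha'N dl d1 hdl hd1
      obtain ⟨T0D, s0D, h0D⟩ := key a a' ha0 ha'0 haa haN ha'N d1 dl hd1 hdl
      obtain ⟨TD1, sD1, hD1'⟩ := key a a' ha0 ha'0 haa haN ha'N dl th hdl hth
      obtain ⟨T1D, s1D, h1D⟩ := key a a' ha0 ha'0 haa haN ha'N th dl hth hdl
      simp only [Ev_d1 hD1, hat_d1 hD1] at s10 h10 s01 h01 sD0 hD0 s0D h0D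
      exact core hw0 (fun n => xx_nonneg P (n - a)) (fun n => xx_nonneg P (n - a'))
        (fun n => hpt (n - a)) (fun n => hpt (n - a')) s11 s10 s01 sT0 sD0 s0D sD1 s1D
        (hsR a a').hasSum hV0 hV1 hρ0.le hρ1 hhat hdhat h11 h10 h01 hT0 hD0 h0D hD1' h1D)
  -- the primes up to `D`
  have hSa : ∑ a ∈ 𝒜, (∑ p ∈ (Icc 1 N).filter Nat.Prime, f p * (xx P (p - a) - V)) ^ 2 ≤
      2 * (∑ a ∈ 𝒜, (∑ p ∈ S, f p * (fun (a n : ℤ) => xx P (n - a) - V) a p) ^ 2) +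
        (𝒜.card : ℝ) * (2 * (D : ℝ) ^ 2) := by
    have h1 : ∀ a ∈ 𝒜, (∑ p ∈ (Icc 1 N).filter Nat.Prime, f p * (xx P (p - a) - V)) ^ 2 ≤
        2 * (∑ p ∈ S, f p * (fun (a n : ℤ) => xx P (n - a) - V) a p) ^ 2 + 2 * (D : ℝ) ^ 2 :=
      fun a _ => small_primes hf (fun p => hxV _) hS
    refine (sum_le_sum h1).trans ?_
    rw [sum_add_distrib, ← mul_sum, sum_const, nsmul_eq_mul]
  have hzz : 2 * (D : ℝ) ^ 2 ≤ ρ * V ^ 2 * X ^ 2 := by
    have h1 : (D : ℝ) ^ 2 ≤ N := by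
      calc (D : ℝ) ^ 2 ≤ ((N : ℝ) ^ (1 / 40 : ℝ)) ^ 2 :=
            pow_le_pow_left₀ (Nat.cast_nonneg _) hz1 2
        _ = (N : ℝ) ^ (1 / 20 : ℝ) := by
            rw [← Real.rpow_natCast, ← Real.rpow_mul hN0.le]
            norm_num
        _ ≤ (N : ℝ) ^ (1 : ℝ) := Real.rpow_le_rpow_of_exponent_le hN1 (by norm_num)
        _ = N := Real.rpow_one _
    have h2 : (c2 / l) ^ 2 ≤ V ^ 2 := pow_le_pow_left₀ (by positivity) hVl 2
    calc 2 * (D : ℝ) ^ 2 ≤ 2 * N := by linarith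
      _ ≤ κ * N / l ^ 4 * N := by
          have h3 : 2 ≤ κ * N / l ^ 4 := by
            rw [le_div_iff₀ (by positivity)]
            exact g4
          gcongr
      _ = ρ * (c2 / l) ^ 2 * (N / l) ^ 2 := by
          rw [hκe]
          field_simp
      _ ≤ ρ * V ^ 2 * (N / l) ^ 2 := by gcongr
      _ = ρ * V ^ 2 * X ^ 2 := by rw [hX]
  have hfin := fin_num hV0 hV1 hρ0.le hρ1 hX0 hEX hLa (sum_nonneg fun p _ => sq_nonneg (f p))
    hFs rfl rfl (Nat.cast_nonneg 𝒜.card) hdu hSa hzz hρe hE0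
  rw [hX] at hfin
  exact hfin

end Pool.Agent.U8.PL
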